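import Pool.Agent.Q120.PI.Main
import Pool.Agent.Q92.PI.PIB
import Pool.Agent.Q38.PI.PIE
import Pool.Agent.Q251.PI.PIT
import Pool.Agent.Q210.PI.PIL

/-!
# The information cost of an infinite cluster at the critical point of `Z^d`, `d ≥ 3`

Site percolation on `Z^d`. `cost μ p n` is the relative entropy (in nats) of the law of the configuration in the box of radius `n`
under `μ` with respect to percolation with parameter `p`; `arm 0 n` is the event that the cluster of `0` reaches distance `n`.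
-/

set_option autoImplicit false

namespace Pool.Agent.Results.MP_e13933_pr.InformationCost

open MeasureTheory Filter Pool.Agent.Q120.PI

/-- (A) For `p` near `p_c` there is a law `μ` with almost surely an infinite cluster at `0` and with cost at most
`C (log (n + 2) + |p - p_c| ^ a n)` for all `n`: at `p_c` percolation costs at most `C log (n + 2)` nats. (B) The cost is at least
`μ(C(0) infinite) log (1 / P_p(arm 0 n)) - log 2`. (C) `θ(p_c) = 0` iff for some `f → ∞` all `μ` with `cost μ p_c n ≤ f n` have almost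
surely no infinite cluster. -/
theorem result (d : ℕ) (hd : 3 ≤ d) :
    (∃ a c C : ℝ, 0 < a ∧ 0 < c ∧ 0 < C ∧ ∀ p : unitInterval, |(p : ℝ) - pc d| ≤ c →
      ∃ μ : Measure (V d → Bool), IsProbabilityMeasure μ ∧ μ {ω | (cluster ω 0).Infinite} = 1 ∧
        ∀ n : ℕ, cost μ p n ≤ C * (Real.log (n + 2) + |(p : ℝ) - pc d| ^ a * n)) ∧
    (∀ p : unitInterval, (0 : ℝ) < p → (p : ℝ) < 1 → ∀ μ : Measure (V d → Bool), IsProbabilityMeasure μ → ∀ n : ℕ,
      μ.real {ω | (cluster ω 0).Infinite} * Real.log (1 / (P d p).real (arm (d := d) 0 n)) ≤ cost μ p n + Real.log 2) ∧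
    (theta d (pc d) = 0 ↔ ∃ f : ℕ → ℝ, (∀ n, 0 ≤ f n) ∧ Tendsto f atTop atTop ∧
      ∀ μ : Measure (V d → Bool), IsProbabilityMeasure μ → (∀ n, cost μ (pc d) n ≤ f n) →
        μ {ω | ∃ x : V d, (cluster ω x).Infinite} = 0) :=
  ⟨part_A Pool.Agent.Q92.PI.t_PIB Pool.Agent.Q251.PI.t_PIT Pool.Agent.Q210.PI.t_PID Pool.Agent.Q210.PI.t_PIL d hd,
    fun p h0 h1 μ hμ n => part_B Pool.Agent.Q92.PI.t_PIB Pool.Agent.Q38.PI.t_PIE d p h0 h1 μ n,
    part_C Pool.Agent.Q92.PI.t_PIB Pool.Agent.Q251.PI.t_PIT Pool.Agent.Q38.PI.t_PIE d hd⟩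

end Pool.Agent.Results.MP_e13933_pr.InformationCost
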