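import Pool.Agent.Q218.TC.SurfFinal

set_option autoImplicit false

open MeasureTheory Set

/-!
Site percolation on `Z^d`, `d ≥ 3`: the surface tension vanishes polynomially at the critical point.
The probability that no open path joins the box of radius `R` to the boundary of the box of radius
`2 R` is at least `exp (-C (|p - p_c| ^ a + R ^ (-b)) R ^ (d - 1))` for all `p` near `p_c`.
-/

namespace Pool.Agent.Results.MP_e13933_pr.SurfaceTension

noncomputable section

/-- Vertices of `Z^d`. -/
abbrev V (d : ℕ) : Type := Fin d → ℤ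

/-- The box of radius `N` around the origin. -/
def box (d N : ℕ) : Set (V d) := {x | ∀ i, |x i| ≤ N}

/-- The boundary of the box of radius `N`: the vertices with sup norm `N`. -/
def sphere (d N : ℕ) : Set (V d) := {x | x ∈ box d N ∧ ∃ i, |x i| = N}

/-- The open subgraph: two vertices at Euclidean distance one are joined if both are open
(`ω x = true`). -/
def openGraph {d : ℕ} (ω : V d → Bool) : SimpleGraph (V d) where
  Adj x y := ∑ i, |x i - y i| = 1 ∧ ω x = true ∧ ω y = true
  symm := ⟨fun x y ⟨h1, h2, h3⟩ => ⟨by simpa only [abs_sub_comm] using h1, h3, h2⟩⟩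
  loopless := ⟨fun x h => by simpa using h.1⟩

/-- The open cluster of `x` (empty if `x` is closed). -/
def cluster {d : ℕ} (ω : V d → Bool) (x : V d) : Set (V d) :=
  {y | ω x = true ∧ (openGraph ω).Reachable x y}

/-- Site percolation with parameter `p`: all vertices are open with probability `p`,
independently. -/
def P (d : ℕ) (p : unitInterval) : Measure (V d → Bool) :=
  Measure.infinitePi (fun _ : V d =>
    ENNReal.ofReal (p : ℝ) • Measure.dirac true + ENNReal.ofReal (1 - (p : ℝ)) • Measure.dirac false)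

/-- The percolation probability `θ_d(p)`. -/
def theta (d : ℕ) (p : unitInterval) : ℝ := (P d p).real {ω | (cluster ω 0).Infinite}

/-- The critical point `p_c(d)`, the supremum of the parameters with `θ_d(p) = 0`. -/
def pc (d : ℕ) : unitInterval :=
  ⟨sSup {t : ℝ | ∃ q : unitInterval, (q : ℝ) = t ∧ theta d q = 0}, by
    constructor
    · apply Real.sSup_nonneg
      rintro x ⟨q, rfl, _⟩
      exact q.2.1
    · apply Real.sSup_le
      · rintro x ⟨q, rfl, _⟩
        exact q.2.2
      · exact zero_le_one⟩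

lemma nd_mem {d : ℕ} {ω : V d → Bool} {x y : V d} :
    (∀ c ∈ (Pool.Agent.Y990.CB.siteM d).nd x y, ω c = true) ↔ ω x = true ∧ ω y = true := by
  show (∀ c : V d, c ∈ ({x, y} : Finset (V d)) → ω c = true) ↔ _
  simp only [Finset.mem_insert, Finset.mem_singleton, forall_eq_or_imp, forall_eq]

open Pool.Agent.Y990.CB in
lemma graph_eq {d : ℕ} (ω : V d → Bool) : openGraph ω = G (siteM d) ω univ := by
  ext x y
  show (∑ i, |x i - y i| = 1 ∧ ω x = true ∧ ω y = true) ↔
    (∑ i, |x i - y i| = 1 ∧ x ∈ univ ∧ y ∈ univ ∧ ∀ c ∈ (siteM d).nd x y, ω c = true)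
  rw [nd_mem]
  simp only [mem_univ, true_and]

open Pool.Agent.Y990.CB in
lemma cluster_sub {d : ℕ} (ω : V d → Bool) (x : V d) :
    cluster ω x ⊆ cl (siteM d) ω univ x := by
  rintro y ⟨-, h⟩
  rw [graph_eq] at h
  exact h

open Pool.Agent.Y990.CB in
/-- A vertex connected to a different vertex is open. -/
lemma open_of {d : ℕ} {ω : V d → Bool} {x y : V d} (hxy : y ≠ x)
    (hr : (G (siteM d) ω univ).Reachable x y) : ω x = true := by
  obtain ⟨q⟩ := hr
  cases q with
  | nil => exact absurd rfl hxy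
  | cons hadj _ => exact (nd_mem.1 hadj.2.2.2).1

open Pool.Agent.Y990.CB in
lemma infinite_iff {d : ℕ} (ω : V d → Bool) (x : V d) :
    (cluster ω x).Infinite ↔ ω ∈ Perc (siteM d) x := by
  constructor
  · intro h
    exact h.mono (cluster_sub ω x)
  · intro h
    obtain ⟨y, hy, hyx⟩ := Set.Infinite.exists_notMem_finset h {x}
    have hyx' : y ≠ x := by simpa using hyx
    have hx := open_of hyx' hy
    refine Set.Infinite.mono ?_ h
    intro z hz
    refine ⟨hx, ?_⟩
    rw [graph_eq]
    exact hz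

open Pool.Agent.Y990.CB in
lemma P_eq (d : ℕ) (p : unitInterval) : P d p = mu (siteM d) p := rfl

open Pool.Agent.Y990.CB in
lemma theta_eq (d : ℕ) (p : unitInterval) : theta d p = th (siteM d) p := by
  unfold theta th
  rw [P_eq]
  congr 1
  ext ω
  exact infinite_iff ω 0

open Pool.Agent.Y990.CB in
lemma pc_eq (d : ℕ) : pc d = Pool.Agent.Y990.CB.pc (siteM d) := by
  apply Subtype.ext
  show sSup {t : ℝ | ∃ q : unitInterval, (q : ℝ) = t ∧ theta d q = 0} =
    sSup {x : ℝ | ∃ q : unitInterval, (q : ℝ) = x ∧ th (siteM d) q = 0}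
  simp only [theta_eq]

lemma box_eq (d N : ℕ) : box d N = Pool.Agent.Y990.CB.Bo (0 : V d) N := by
  ext x
  simp only [box, Pool.Agent.Y990.CB.Bo, mem_ofPred_eq, Pi.zero_apply, sub_zero]

lemma sphere_eq (d N : ℕ) : sphere d N = Pool.Agent.Y990.CB.Fr (0 : V d) N := by
  ext x
  simp only [sphere, Pool.Agent.Y990.CB.Fr, box_eq, mem_ofPred_eq, Pi.zero_apply, sub_zero]

/-- **The surface tension vanishes polynomially at the critical point.**  For every `d ≥ 3` there
are `a, b, c, C > 0` and `R0` such that for all `p` with `|p - p_c| ≤ c` and all `R ≥ R0`, with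
`P_p`-probability at least `exp (-C (|p - p_c| ^ a + R ^ (-b)) R ^ (d - 1))` no open cluster meets
both the box of radius `R` and the boundary of the box of radius `2 R`. -/
theorem result (d : ℕ) (hd : 3 ≤ d) :
    ∃ (a b c C : ℝ) (R0 : ℕ), 0 < a ∧ 0 < b ∧ 0 < c ∧ 0 < C ∧
      ∀ p : unitInterval, |(p : ℝ) - pc d| ≤ c → ∀ R : ℕ, R0 ≤ R →
        Real.exp (-(C * (|(p : ℝ) - pc d| ^ a + (R : ℝ) ^ (-b)) * (R : ℝ) ^ (d - 1))) ≤
          (P d p).real {ω | ∀ x ∈ box d R, ∀ y ∈ sphere d (2 * R), y ∉ cluster ω x} := by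
  obtain ⟨a, b, c, C, R0, ha, hb, hc, hC, h⟩ := Q218.TC.surf_main hd
    (Pool.Agent.Y990.CB.siteM d) Pool.Agent.Y990.CB.nd_site (Pool.Agent.Y448.CB2.qm_site d)
  refine ⟨a, b, c, C, R0, ha, hb, hc, hC, fun p hp R hR => ?_⟩
  rw [pc_eq] at hp ⊢
  rw [P_eq]
  refine (h p hp R hR).trans (measureReal_mono ?_ (measure_ne_top _ _))
  intro ω hω x hx y hy hxy
  rw [box_eq] at hx
  rw [sphere_eq] at hy
  exact hω ⟨x, hx, y, hy, cluster_sub ω x hxy⟩

end

end Pool.Agent.Results.MP_e13933_pr.SurfaceTension
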