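import Pool.Agent.Q93.TS.TS4
import Pool.Agent.Results.MP_e13933_pr.PolynomialHoles

set_option autoImplicit false

open MeasureTheory Set Filter

/-!
Site percolation on `Z^d`, `d ≥ 3`, at and below the critical point, restricted to subsets of `Z^d`
with polynomially thin spheres: there is no infinite cluster, and every path of the subset which
crosses an annulus of size `n` contains at least `n ^ (1 - δ)` closed vertices, except with
probability `exp (- n ^ (1 - δ))`.
-/

namespace Pool.Agent.Results.MP_e13933_pr.ThinSets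

noncomputable section

/-- Vertices of `Z^d`. -/
abbrev V (d : ℕ) : Type := Fin d → ℤ

/-- The box (sup-norm ball) with centre `z` and radius `k`. -/
def ball {d : ℕ} (z : V d) (k : ℕ) : Set (V d) := {x | ∀ i, |x i - z i| ≤ k}

/-- The sphere of radius `r`: the vertices with sup norm `r`. -/
def sphere (d r : ℕ) : Set (V d) := {x | (∀ i, |x i| ≤ r) ∧ ∃ i, |x i| = r}

/-- The nearest-neighbour graph on the subset `S` of `Z^d`. -/
def lattice {d : ℕ} (S : Set (V d)) : SimpleGraph (V d) where
  Adj x y := ∑ i, |x i - y i| = 1 ∧ x ∈ S ∧ y ∈ S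
  symm := ⟨fun x y ⟨h1, h2, h3⟩ => ⟨by simpa only [abs_sub_comm] using h1, h3, h2⟩⟩
  loopless := ⟨fun x h => by simpa using h.1⟩

/-- The open subgraph inside the region `S`: two vertices at Euclidean distance one are joined if
both are open (`ω x = true`) and in `S`. -/
def openGraph {d : ℕ} (ω : V d → Bool) (S : Set (V d)) : SimpleGraph (V d) where
  Adj x y := ∑ i, |x i - y i| = 1 ∧ (x ∈ S ∧ ω x = true) ∧ (y ∈ S ∧ ω y = true)
  symm := ⟨fun x y ⟨h1, h2, h3⟩ => ⟨by simpa only [abs_sub_comm] using h1, h3, h2⟩⟩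
  loopless := ⟨fun x h => by simpa using h.1⟩

/-- The open cluster of `x` inside the region `S` (empty if `x` is closed). -/
def cluster {d : ℕ} (ω : V d → Bool) (S : Set (V d)) (x : V d) : Set (V d) :=
  {y | (ω x = true ∧ x ∈ S) ∧ (openGraph ω S).Reachable x y}

/-- Site percolation with parameter `p`: all vertices are open with probability `p`,
independently. -/
def P (d : ℕ) (p : unitInterval) : Measure (V d → Bool) :=
  Measure.infinitePi (fun _ : V d =>
    ENNReal.ofReal (p : ℝ) • Measure.dirac true + ENNReal.ofReal (1 - (p : ℝ)) • Measure.dirac false)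

/-- The percolation probability `θ_d(p)`. -/
def theta (d : ℕ) (p : unitInterval) : ℝ := (P d p).real {ω | (cluster ω univ 0).Infinite}

/-- The critical point `p_c(d)`, the supremum of the parameters with `θ_d(p) = 0`. -/
def pc (d : ℕ) : unitInterval :=
  ⟨sSup {t : ℝ | ∃ q : unitInterval, (q : ℝ) = t ∧ theta d q = 0}, by
    constructor
    · apply Real.sSup_nonneg
      rintro x ⟨q, rfl, _⟩
      exact q.2.1
    · apply Real.sSup_le
      · rintro x ⟨q, rfl, _⟩
        exact q.2.2
      · exact zero_le_one⟩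

/-- The sphere of radius `r` of `S` is covered by finitely many boxes, and the product of the
numbers `k + 2`, `k` the radii of the boxes, is at most `c`. -/
def SphereCost {d : ℕ} (S : Set (V d)) (r : ℕ) (c : ℝ) : Prop :=
  ∃ F : Finset (V d × ℕ), S ∩ sphere d r ⊆ (⋃ b ∈ F, ball b.1 b.2) ∧
    ∏ b ∈ F, ((b.2 : ℝ) + 2) ≤ c

open Pool.Agent.Y990.CB Pool.Agent.Q93.TS

lemma ball_eq {d : ℕ} (z : V d) (k : ℕ) : ball z k = Bo z k := rfl

lemma sphere_eq (d r : ℕ) : sphere d r = Fr (0 : V d) r := by
  ext x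
  simp only [sphere, Fr, Bo, mem_ofPred_eq, Pi.zero_apply, sub_zero]

lemma lattice_eq {d : ℕ} (S : Set (V d)) : lattice S = LG S := by
  ext x y
  exact Iff.rfl

lemma cluster_sub {d : ℕ} (ω : V d → Bool) (S : Set (V d)) (x : V d) :
    cluster ω S x ⊆ cl (siteM d) ω S x :=
  Pool.Agent.Results.MP_e13933_pr.PolynomialHoles.cluster_sub ω S x

lemma P_eq (d : ℕ) (p : unitInterval) : P d p = mu (siteM d) p := rfl

lemma pc_eq (d : ℕ) : pc d = Pool.Agent.Y990.CB.pc (siteM d) :=
  Pool.Agent.Results.MP_e13933_pr.PolynomialHoles.pc_eq d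

lemma UI_eq {d : ℕ} (F : Finset (V d × ℕ)) : (⋃ b ∈ F, ball b.1 b.2) = UI F := rfl

/-- **Critical percolation in thin subsets of `Z^d`.**  For every `d ≥ 3` there is `A ≥ 1` such
that the following holds for all `p ≤ p_c` (in particular at `p = p_c`).

* Let `0 < δ < 1` and let `S` be a set of vertices such that for all large `r` the sphere of radius
  `r` of `S` is covered by finitely many boxes with `∏ (k + 2) ≤ r ^ (δ / (8 A))`, the product over
  the boxes, `k` the radius (for example by one box of radius `r ^ (δ / (8 A)) - 2`, with an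
  arbitrary centre).  Then:
  - for all large `n`, except with probability `exp (- n ^ (1 - δ))`, every path of `S` which joins
    the box of radius `n / 4` to the sphere of radius `n` contains at least `n ^ (1 - δ)` closed
    vertices;
  - almost surely all open clusters in `S` are finite;
  - almost surely, for all large `n` there is `r` in `[n - n ^ δ, n]` such that all open clusters
    of `Z^d` which meet the sphere of radius `r` of `S` have radius at most `n ^ δ`; so an infinite
    open cluster of `Z^d` does not meet this sphere of `S`.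

* (Criterion.)  Let `F 0, F 1, ...` be finite sets of boxes.  Suppose that the boxes with the radii
  `(k + 2) ^ A` in place of `k` are disjoint for different `F i`, that for every vertex `x` of `S`
  and all large `i` the component of `x` in `S` without the boxes of `F i` is finite, and that the
  sum over `i` of the products of the numbers `(k + 2) ^ (-A)`, `k` the radii of the boxes of
  `F i`, is infinite.  Then almost surely all open clusters in `S` are finite. -/
theorem result (d : ℕ) (hd : 3 ≤ d) : ∃ A : ℕ, 1 ≤ A ∧ ∀ p : unitInterval, p ≤ pc d →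
    (∀ (S : Set (V d)) (δ : ℝ), 0 < δ → δ < 1 →
      (∀ᶠ r : ℕ in atTop, SphereCost S r ((r : ℝ) ^ (δ / (8 * A)))) →
      (∀ᶠ n : ℕ in atTop, (P d p).real {ω | ∃ x ∈ ball (0 : V d) (n / 4), ∃ y ∈ sphere d n,
        ∃ w : (lattice S).Walk x y,
          (({v | v ∈ w.support ∧ ω v = false}.ncard : ℕ) : ℝ) < (n : ℝ) ^ (1 - δ)} ≤
            Real.exp (-(n : ℝ) ^ (1 - δ))) ∧
      (∀ᵐ ω ∂(P d p), ∀ x, (cluster ω S x).Finite) ∧
      (∀ᵐ ω ∂(P d p), ∀ᶠ n : ℕ in atTop, ∃ r : ℕ, (n : ℝ) - (n : ℝ) ^ δ ≤ r ∧ r ≤ n ∧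
        ∀ x ∈ S ∩ sphere d r, ∀ y ∈ cluster ω univ x, ∀ i,
          ((|y i - x i| : ℤ) : ℝ) ≤ (n : ℝ) ^ δ)) ∧
    (∀ (S : Set (V d)) (F : ℕ → Finset (V d × ℕ)),
      (∀ i j, i ≠ j → ∀ b ∈ F i, ∀ b' ∈ F j,
        Disjoint (ball b.1 ((b.2 + 2) ^ A)) (ball b'.1 ((b'.2 + 2) ^ A))) →
      (∀ x ∈ S, ∀ᶠ i in atTop,
        {y | (lattice (S \ ⋃ b ∈ F i, ball b.1 b.2)).Reachable x y}.Finite) →
      (¬ Summable fun i => ∏ b ∈ F i, (((b.2 : ℝ) + 2) ^ A)⁻¹) →
      ∀ᵐ ω ∂(P d p), ∀ x, (cluster ω S x).Finite) := by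
  have hN : Nd (siteM d) := nd_site
  have hQ : Qm (siteM d) := Pool.Agent.Y448.CB2.qm_site d
  obtain ⟨A, hA, h⟩ := hole_low hd (siteM d) hN hQ
  refine ⟨A, hA, fun p hp => ?_⟩
  rw [pc_eq] at hp
  have hh : ∀ k : ℕ, (((k : ℝ) + 2) ^ A)⁻¹ ≤ Pool.Agent.Y990.OA.hol (siteM d) p k (Nk A k) :=
    fun k => h k p hp
  refine ⟨fun S δ hδ hδ1 hS => ?_, fun S F hF hsep hs => ?_⟩
  · have hthin : Thin S (δ / (8 * A)) := by
      filter_upwards [hS] with r hr
      obtain ⟨F, hF1, hF2⟩ := hr
      refine ⟨F, ?_, hF2⟩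
      rw [← sphere_eq, ← UI_eq]
      exact hF1
    have hbl := blocked (siteM d) p hA hh hδ hδ1 hthin
    refine ⟨?_, ?_, ?_⟩
    · filter_upwards [paths p hA hh hδ hδ1 hthin] with n hn
      rw [P_eq, sphere_eq, ball_eq, lattice_eq]
      exact hn
    · rw [P_eq]
      filter_upwards [hbl] with ω hω x
      exact (finite_clusters hδ1 hω x).subset (cluster_sub ω S x)
    · rw [P_eq]
      filter_upwards [hbl] with ω hω
      filter_upwards [hω] with n hn
      obtain ⟨r, hr1, hr2, hr3⟩ := hn
      refine ⟨r, hr1, hr2, fun x hx y hy i => ?_⟩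
      rw [sphere_eq] at hx
      have h1 := hr3 x hx (cluster_sub ω univ x hy) i
      have h2 : ((|y i - x i| : ℤ) : ℝ) ≤ ((⌊(n : ℝ) ^ δ⌋₊ : ℕ) : ℝ) := by exact_mod_cast h1
      exact h2.trans (Nat.floor_le (by positivity))
  · rw [P_eq]
    have hF' : ∀ i j, i ≠ j → Disjoint (UB A (F i)) (UB A (F j)) := by
      intro i j hij
      rw [Set.disjoint_left]
      intro x hx hx'
      obtain ⟨b, hb, hxb⟩ := mem_UB.1 hx
      obtain ⟨b', hb', hxb'⟩ := mem_UB.1 hx'
      exact Set.disjoint_left.1 (hF i j hij b hb b' hb') hxb hxb'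
    filter_upwards [crit (siteM d) p hh F hF' hs] with ω hω x
    by_cases hx : x ∈ S
    · obtain ⟨i, h1, h2⟩ := (hω.and_eventually (hsep x hx)).exists
      rw [lattice_eq, UI_eq] at h2
      exact (HE_finite hA h1 h2).subset (cluster_sub ω S x)
    · have : cluster ω S x = ∅ := by
        ext y
        simp only [cluster, mem_ofPred_eq, mem_empty_iff_false, iff_false]
        rintro ⟨⟨_, h1⟩, _⟩
        exact hx h1
      rw [this]
      exact Set.finite_empty

end

end Pool.Agent.Results.MP_e13933_pr.ThinSets
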